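import Pool.Agent.T2h10.RG.Thm

/-!
# MP_1155ce_an: the eigenvectors of the lift of a Jacobi matrix on `K_{r,g}` vanish at the green vertices

Let `r > g ≥ 2` and let `J` be a Jacobi matrix on the complete bipartite graph `K_{r,g}` with `r` red and `g` green
vertices, with real potential `b` and positive edge weights `a`. Let `H` be its lift to the universal cover `T` of
`K_{r,g}`. Every eigenvector of `H` vanishes at every green vertex: Q1 is true.

Proof (self-contained; the index theorem is not assumed). Let `P` be the reproducing kernel of the eigenspace, `X` the
set of the base vertices `v` with `p v = P x x > 0` for `x` above `v`. For adjacent `x`, `y` in the tree with `p x > 0` let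
`s x y` be the part of the mass of `P x` beyond `y`, divided by `p x`. Then `∑ s x y = 1 - p x` (sum over the
neighbours `y` of `x`), `s x y + s y x = 1` for an edge in the support (the Wronskian of two eigenvectors at an edge is
zero, so that `P x` and `P y` are proportional), and for a vertex `w` outside of the support with a neighbour in it, the
sum of `s x w` over the neighbours `x` of `w` in the support is at least `1` (Cauchy-Schwarz, for the equation at `w` and
the masses of the branches at `w`). All this is invariant under the deck transformations. The sum over `X` gives the
inequality (edges in X) + (vertices outside of X adjacent to X) < |X|, and for `K_{r,g}`, `r > g ≥ 2`, it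
follows that `X` is a set of (more than `g`) red vertices.
-/

set_option autoImplicit false

namespace Pool.Agent.Results.MP_1155ce_an.GreenVertices

open Pool.Agent.T2h10.RG

/-- **Theorem (Q1).** Let `r > g ≥ 2`, `J` a Jacobi matrix on `K_{r,g}` (red vertices `Sum.inl i`, green vertices
`Sum.inr j`), `H` its lift to the universal cover. Every eigenvector of `H` vanishes at every green vertex. -/
theorem result {r g : ℕ} (hg : 2 ≤ g) (hrg : g < r) (J : Jacobi (completeBipartiteGraph (Fin r) (Fin g)))
    {V : Type} {T : SimpleGraph V} [T.LocallyFinite] {π : V → Fin r ⊕ Fin g}
    (hπ : IsUniversalCover T (completeBipartiteGraph (Fin r) (Fin g)) π) {lam : ℝ} {u : V → ℂ}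
    (hu : IsEigenvector J T π lam u) (x : V) (hx : ∃ j : Fin g, π x = Sum.inr j) : u x = 0 :=
  (green_and_red hg hrg J hπ hu).1 x hx

end Pool.Agent.Results.MP_1155ce_an.GreenVertices
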